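import Pool.Agent.Lib.H77I.Rate

set_option autoImplicit false
universe u

open MeasureTheory ProbabilityTheory
open scoped ENNReal

namespace Pool.Agent.Results.MP_b45e87_pr.SecondOrderRate

/-- The Euclidean plane. -/
abbrev Plane : Type := EuclideanSpace ℝ (Fin 2)

/-- The square of the quadratic Wasserstein distance: the infimum of the integral of `|x - y|^2` over all
couplings. -/
noncomputable def W2sq (α β : Measure Plane) : ℝ≥0∞ :=
  ⨅ (π : Measure (Plane × Plane)) (_ : π.map Prod.fst = α ∧ π.map Prod.snd = β),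
    ∫⁻ p, edist p.1 p.2 ^ 2 ∂π

/-- The uniform distribution on the unit square. -/
noncomputable def unif : Measure Plane :=
  volume.restrict {x | ∀ i, 0 ≤ x i ∧ x i ≤ 1}

/-- The empirical measure of the first `n` points. -/
noncomputable def empirical (n : ℕ) (x : ℕ → Plane) : Measure Plane :=
  (n : ℝ≥0∞)⁻¹ • ∑ i ∈ Finset.range n, Measure.dirac (x i)

/-- The expected squared distance `E_n` between the empirical measure and the uniform distribution. -/
noncomputable def expectedCost {Ω : Type u} [MeasurableSpace Ω] (P : Measure Ω) (X : ℕ → Ω → Plane)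
    (n : ℕ) : ℝ≥0∞ :=
  ∫⁻ ω, W2sq (empirical n fun i => X i ω) unif ∂P

/-- The plane with the coordinates as a pair. -/
noncomputable def ee : Plane ≃ᵐ ℝ × ℝ :=
  (MeasurableEquiv.toLp 2 (Fin 2 → ℝ)).symm.trans MeasurableEquiv.finTwoArrow

lemma ee_apply (x : Plane) : ee x = (x 0, x 1) := rfl

lemma ee_mp : MeasurePreserving ee (volume : Measure Plane) volume :=
  (EuclideanSpace.volume_preserving_symm_measurableEquiv_toLp (Fin 2)).trans
    (volume_preserving_finTwoArrow ℝ)

lemma unif_map : unif.map ee = Pool.Agent.Lib.H77M.U := by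
  unfold unif Pool.Agent.Lib.H77M.U
  have h1 : {x : Plane | ∀ i, 0 ≤ x i ∧ x i ≤ 1} =
      ee ⁻¹' (Set.Icc (0 : ℝ) 1 ×ˢ Set.Icc (0 : ℝ) 1) := by
    ext x
    simp only [Set.mem_setOf_eq, Set.mem_preimage, ee_apply, Set.mem_prod, Set.mem_Icc,
      Fin.forall_fin_two]
  rw [h1, ← Measure.restrict_map ee.measurable (measurableSet_Icc.prod measurableSet_Icc), ee_mp.map_eq]

lemma empirical_map (n : ℕ) (x : ℕ → Plane) : (empirical n x).map ee =
    (n : ℝ≥0∞)⁻¹ • ∑ i : Fin n, Measure.dirac (ee (x i)) := by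
  unfold empirical
  rw [Measure.map_smul, ← Measure.mapₗ_apply_of_measurable ee.measurable, map_sum,
    Finset.sum_range]
  congr 1
  refine Finset.sum_congr rfl fun i _ => ?_
  rw [Measure.mapₗ_apply_of_measurable ee.measurable]
  exact Measure.map_dirac' ee.measurable _

lemma edist_sq (x y : Plane) : edist x y ^ 2 =
    ENNReal.ofReal (((ee x).1 - (ee y).1) ^ 2 + ((ee x).2 - (ee y).2) ^ 2) := by
  rw [edist_dist, ← ENNReal.ofReal_pow dist_nonneg, EuclideanSpace.dist_eq, Real.sq_sqrt
    (Finset.sum_nonneg fun _ _ => sq_nonneg _), Fin.sum_univ_two, Real.dist_eq, Real.dist_eq, sq_abs,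
    sq_abs]
  rfl

lemma W2sq_eq (n : ℕ) (x : ℕ → Plane) : W2sq (empirical n x) unif =
    Pool.Agent.Lib.H77I.Phi n (fun i : Fin n => ee (x i)) := by
  unfold W2sq Pool.Agent.Lib.H77I.Phi
  have key : ∀ π : Measure (Plane × Plane), ∫⁻ p, edist p.1 p.2 ^ 2 ∂π =
      ∫⁻ p, ENNReal.ofReal ((p.1.1 - p.2.1) ^ 2 + (p.1.2 - p.2.2) ^ 2)
        ∂(π.map (ee.prodCongr ee)) := by
    intro π
    rw [lintegral_map_equiv]
    refine lintegral_congr fun p => ?_
    rw [edist_sq]
    rfl
  apply le_antisymm
  · refine le_iInf₂ fun γ hγ => ?_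
    have hγ' : (γ.map (ee.prodCongr ee).symm).map (ee.prodCongr ee) = γ := by
      rw [Measure.map_map (ee.prodCongr ee).measurable (ee.prodCongr ee).symm.measurable]
      have : (ee.prodCongr ee : Plane × Plane → _) ∘ (ee.prodCongr ee).symm = id :=
        funext fun p => (ee.prodCongr ee).apply_symm_apply p
      rw [this, Measure.map_id]
    have c1 : (γ.map (ee.prodCongr ee).symm).map Prod.fst = empirical n x := by
      have h1 := empirical_map n x
      rw [← hγ.1] at h1
      apply ee.map_measurableEquiv_injective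
      rw [h1, Measure.map_map measurable_fst (ee.prodCongr ee).symm.measurable,
        Measure.map_map ee.measurable (measurable_fst.comp (ee.prodCongr ee).symm.measurable)]
      congr 1
    have c2 : (γ.map (ee.prodCongr ee).symm).map Prod.snd = unif := by
      have h1 := unif_map
      rw [← hγ.2] at h1
      apply ee.map_measurableEquiv_injective
      rw [h1, Measure.map_map measurable_snd (ee.prodCongr ee).symm.measurable,
        Measure.map_map ee.measurable (measurable_snd.comp (ee.prodCongr ee).symm.measurable)]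
      congr 1
    refine (iInf₂_le (γ.map (ee.prodCongr ee).symm) ⟨c1, c2⟩).trans ?_
    rw [key, hγ']
  · refine le_iInf₂ fun π hπ => ?_
    rw [key]
    refine iInf₂_le (π.map (ee.prodCongr ee)) ⟨?_, ?_⟩
    · rw [← empirical_map, ← hπ.1, Measure.map_map measurable_fst (ee.prodCongr ee).measurable,
        Measure.map_map ee.measurable measurable_fst]
      rfl
    · rw [← unif_map, ← hπ.2, Measure.map_map measurable_snd (ee.prodCongr ee).measurable,
        Measure.map_map ee.measurable measurable_snd]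
      rfl

/-- There are a real number `ξ`, a constant `C` and an exponent `c > 0` such that for every sequence of independent
uniform random points of the unit square, on any probability space, and every `n ≥ 1`: the squared distance of
the empirical measure and the uniform distribution is almost everywhere measurable, its expectation `E_n` is finite
and `|E_n - (log n / (4 π n) + ξ / n)| ≤ C n ^ (- 1 - c)`. -/
theorem result : ∃ ξ C c : ℝ, 0 < c ∧ ∀ (Ω : Type u) [MeasurableSpace Ω] (P : Measure Ω)
    [IsProbabilityMeasure P] (X : ℕ → Ω → Plane), (∀ i, Measurable (X i)) →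
    (∀ i, P.map (X i) = unif) → iIndepFun X P → ∀ n : ℕ, 1 ≤ n →
      AEMeasurable (fun ω => W2sq (empirical n fun i => X i ω) unif) P ∧
      expectedCost P X n ≠ ⊤ ∧
        |(expectedCost P X n).toReal - (1 / (4 * Real.pi) * (Real.log n / n) + ξ / n)| ≤
          C * (n : ℝ) ^ (-1 - c) := by
  obtain ⟨ξ, C, c, hc, h⟩ := Pool.Agent.Lib.H77I.F_rate
  refine ⟨ξ, C, c, hc, ?_⟩
  intro Ω _ P _ X hX hlaw hind n hn
  have hn0 : (0 : ℝ) < n := by exact_mod_cast hn
  have hlaw' : ∀ i, P.map (fun ω => ee (X i ω)) = Pool.Agent.Lib.H77M.U := by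
    intro i
    rw [← unif_map, ← hlaw i, Measure.map_map ee.measurable (hX i)]
    rfl
  have hfun : (fun ω => W2sq (empirical n fun i => X i ω) unif) =
      fun ω => Pool.Agent.Lib.H77I.Phi n (fun i : Fin n => ee (X i ω)) :=
    funext fun ω => W2sq_eq n fun i => X i ω
  have hind' : iIndepFun (fun i ω => ee (X i ω)) P := hind.comp (fun _ => ee) fun _ => ee.measurable
  have hE : expectedCost P X n = ENNReal.ofReal (Pool.Agent.Lib.H77M.F n / n) := by
    unfold expectedCost
    rw [hfun]
    exact Pool.Agent.Lib.H77I.Phi_iid P (fun i ω => ee (X i ω)) (fun i => ee.measurable.comp (hX i))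
      hlaw' hind' hn
  refine ⟨?_, by rw [hE]; exact ENNReal.ofReal_ne_top, ?_⟩
  · rw [hfun]
    exact Pool.Agent.Lib.H77I.Phi_iid_aemeas P (fun i ω => ee (X i ω))
      (fun i => ee.measurable.comp (hX i)) hlaw' hind' hn
  rw [hE, ENNReal.toReal_ofReal (div_nonneg (Pool.Agent.Lib.H77M.F_nonneg n) hn0.le)]
  have h1 := h n hn
  have h2 : Pool.Agent.Lib.H77M.F n / n - (1 / (4 * Real.pi) * (Real.log n / n) + ξ / n) =
      (Pool.Agent.Lib.H77M.F n - Real.log n / (4 * Real.pi) - ξ) * (n : ℝ)⁻¹ := by
    field_simp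
    ring
  rw [h2, abs_mul, abs_of_pos (inv_pos.2 hn0)]
  have h3 : (n : ℝ) ^ (-1 - c) = (n : ℝ) ^ (-c) * (n : ℝ)⁻¹ := by
    rw [← Real.rpow_neg_one, ← Real.rpow_add hn0]
    congr 1
    ring
  rw [h3, ← mul_assoc]
  exact mul_le_mul_of_nonneg_right h1 (inv_pos.2 hn0).le

end Pool.Agent.Results.MP_b45e87_pr.SecondOrderRate
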